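import Mathlib
import Pool.Agent.TH881.RQ.Wrap

/-! Integers `N` with `N - G(n)` prime for some `n` in a set of positive relative lower density among
the integers or among the primes, `G` any polynomial of degree at least two: the exact minimal density. -/

set_option autoImplicit false

namespace Pool.Agent.Results.MP_0bf1d2_nt.DenseArguments
open Finset Filter Topology Polynomial

open Classical in
/-- The number of elements of `S` in `[1, x]`. -/
noncomputable def count (S : Set ℕ) (x : ℕ) : ℕ := ((Icc 1 x).filter (fun n => n ∈ S)).card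

/-- The lower asymptotic density. -/
noncomputable def lowerDensity (S : Set ℕ) : ℝ := liminf (fun x : ℕ => (count S x : ℝ) / x) atTop

/-- The arguments: the primes if `pr` is true, all natural numbers otherwise. -/
def args (pr : Bool) : Set ℕ := {n | pr = true → n.Prime}

/-- The lower density of the set of the arguments in `A`, relative to the set of all arguments. -/
noncomputable def relLower (pr : Bool) (A : Set ℕ) : ℝ :=
  liminf (fun x : ℕ => (count {n | n ∈ args pr ∧ n ∈ A} x : ℝ) / (count {n | n ∈ args pr} x : ℝ)) atTop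

/-- The natural numbers `N` such that `N = G(n) + p` for some argument `n ∈ A` and some prime `p`. -/
def sums (pr : Bool) (G : ℤ[X]) (A : Set ℕ) : Set ℕ :=
  {N | ∃ n p : ℕ, n ∈ args pr ∧ n ∈ A ∧ p.Prime ∧ G.eval (n : ℤ) + p = N}

/-- `F(β)`: the infimum of the lower densities of `sums pr G A` for the sets `A` of relative lower
density at least `β`. -/
noncomputable def F (pr : Bool) (G : ℤ[X]) (β : ℝ) : ℝ :=
  sInf {d | ∃ A : Set ℕ, β ≤ relLower pr A ∧ d = lowerDensity (sums pr G A)}

/-- The product of the primes up to `w`. -/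
def P (w : ℕ) : ℕ := ∏ p ∈ (Icc 1 w).filter Nat.Prime, p

instance (w : ℕ) : NeZero (P w) := ⟨(Pool.Agent.TH881.Wp_pos w).ne'⟩

open Classical in
/-- The residue classes of the arguments modulo `P w`: the units for prime arguments, else all. -/
noncomputable def classes (pr : Bool) (w : ℕ) : Finset (ZMod (P w)) :=
  univ.filter (fun a => pr = true → IsUnit a)

open Classical in
/-- The sums of `G(a)`, `a ∈ B`, and a unit modulo `P w`. -/
noncomputable def plusUnits (G : ℤ[X]) (w : ℕ) (B : Finset (ZMod (P w))) : Finset (ZMod (P w)) :=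
  univ.filter (fun t => ∃ a ∈ B, IsUnit (t - (G.map (Int.castRingHom (ZMod (P w)))).eval a))

/-- The local minimum: the infimum of `|{G(a) + u : a ∈ B, u unit}| / P w` over all `w` and all
sets `B` of at least the proportion `β` of the residue classes of the arguments modulo `P w`. -/
noncomputable def localF (pr : Bool) (G : ℤ[X]) (β : ℝ) : ℝ := sInf {d | ∃ w : ℕ, ∃ B ⊆ classes pr w,
  β * (classes pr w).card ≤ B.card ∧ d = ((plusUnits G w B).card : ℝ) / P w}

open Pool.Agent.TH881.RQ in
lemma hit_eq (pr : Bool) (G : ℤ[X]) (A : Set ℕ) : hit pr G (-1) A = sums pr G A := by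
  ext N
  constructor
  · rintro ⟨n, hn, hA, hp⟩
    refine ⟨n, _, hn, hA, hp, ?_⟩
    have h1 := hp.pos
    generalize G.eval (n : ℤ) = y at h1 ⊢
    omega
  · rintro ⟨n, p, hn, hA, hp, h⟩
    refine ⟨n, hn, hA, ?_⟩
    have h2 : (N : ℤ) + -1 * G.eval (n : ℤ) = p := by
      rw [← h]
      ring
    rw [h2, Int.toNat_natCast]
    exact hp

open Pool.Agent.TH881.RQ in
lemma F_eq (pr : Bool) (G : ℤ[X]) (β : ℝ) : F pr G β = FFq pr G (-1) β := by
  unfold F FFq
  congr 1
  ext d
  constructor
  · rintro ⟨A, h1, h2⟩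
    refine ⟨A, h1, ?_⟩
    rw [hit_eq]
    exact h2
  · rintro ⟨A, h1, h2⟩
    refine ⟨A, h1, ?_⟩
    rw [hit_eq] at h2
    exact h2

open Pool.Agent.TH881 Pool.Agent.TH881.RQ in
lemma gd_iff' (G : ℤ[X]) (w : ℕ) (t a : ZMod (Wp w)) :
    gd G (-1) w t a ↔ IsUnit (t - (G.map (Int.castRingHom (ZMod (Wp w)))).eval a) := by
  unfold gd gv
  have h2 : t + ((-1 : ℤ) : ZMod (Wp w)) * (G.map (Int.castRingHom (ZMod (Wp w)))).eval a =
      t - (G.map (Int.castRingHom (ZMod (Wp w)))).eval a := by
    push_cast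
    ring
  rw [h2]

open Pool.Agent.TH881 Pool.Agent.TH881.RQ in
open Classical in
lemma sumq_eq (G : ℤ[X]) (w : ℕ) (B : Finset (ZMod (Wp w))) : sumq G (-1) w B =
    univ.filter (fun t => ∃ a ∈ B, IsUnit (t - (G.map (Int.castRingHom (ZMod (Wp w)))).eval a)) := by
  unfold sumq
  apply filter_congr
  intro t _
  constructor
  · rintro ⟨a, ha, h⟩
    exact ⟨a, ha, (gd_iff' G w t a).1 h⟩
  · rintro ⟨a, ha, h⟩
    exact ⟨a, ha, (gd_iff' G w t a).2 h⟩

open Pool.Agent.TH881 Pool.Agent.TH881.RQ in
lemma plusUnits_eq (G : ℤ[X]) (w : ℕ) (B : Finset (ZMod (Wp w))) :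
    ((plusUnits G w B).card : ℝ) / P w = ((sumq G (-1) w B).card : ℝ) / Wp w := by
  rw [sumq_eq]
  rfl

open Pool.Agent.TH881 Pool.Agent.TH881.RG Pool.Agent.TH881.RQ in
lemma localF_eq (pr : Bool) (G : ℤ[X]) (β : ℝ) : localF pr G β = Flocq pr G (-1) β := by
  unfold localF Flocq
  congr 1
  ext d
  constructor
  · rintro ⟨w, B, h0, h1, h2⟩
    exact ⟨w, B, h0, h1, h2.trans (plusUnits_eq G w B)⟩
  · rintro ⟨w, B, h0, h1, h2⟩
    exact ⟨w, B, h0, h1, h2.trans (plusUnits_eq G w B).symm⟩

/-- Let `G` be an integer polynomial of degree at least `2` with positive leading coefficient. For both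
kinds of arguments, `F(β)` is equal to the local minimum for `0 < β < 1`, and `log log (1 / β) F(β)`
tends to `e ^ (-γ)` as `β` tends to `0` from above. -/
theorem result (pr : Bool) (G : ℤ[X]) (hd : 2 ≤ G.natDegree) (hl : 0 < G.leadingCoeff) :
    (∀ β : ℝ, 0 < β → β < 1 → F pr G β = localF pr G β) ∧
    Tendsto (fun β : ℝ => Real.log (Real.log (1 / β)) * F pr G β) (𝓝[>] 0)
      (𝓝 (Real.exp (-Real.eulerMascheroniConstant))) := by
  refine ⟨?_, ?_⟩
  · intro β h0 h1
    rw [F_eq, localF_eq]
    exact Pool.Agent.TH881.RQ.formula pr G hd hl (-1) (Or.inr rfl) β h0 h1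
  · simp only [F_eq]
    exact Pool.Agent.TH881.RQ.law_zero pr G hd hl (-1) (Or.inr rfl)

end Pool.Agent.Results.MP_0bf1d2_nt.DenseArguments
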