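import Mathlib
import Pool.Agent.Y868.TC.G2

/-!
# Schinzel's Goldbach-type hypothesis: every `N`, almost all systems

`N` is given (it is not averaged over), and so are the constant terms `c_i` of `F_1, …, F_g` and all
the coefficients of `F_1, …, F_g` and `G` other than those of `X` and `X²`. For all but a proportion
`(log x)^(-U)` of the choices of these two coefficients in each of the `g + 1` polynomials, the number
`Q_1(N)` of positive integers `n` for which `F_1(n), …, F_g(n), N - G(n)` are all primes is given by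
the formula of Schinzel's hypothesis, with the relative error `(log x)^(-U)`; the singular series is
cut at a power of `log x`, and `X / log^(g+1) X (h_0 ⋯ h_g)⁻¹` is written as the sum of
`1 / (log (N - G(n)) ∏ log F_i(n))`, as the coefficients may be large. Here `x` is the height: it
exceeds the number of positive `n` with `N - G(n) > 0` by powers of `log x` at most.

Proof. `N - n (P_0(n) + a n + b) = p` means that `p ≡ N (mod n)` with complementary divisor
`P_0(n) + a n + b`, and similarly for the `F_i`. The primes are replaced by their sieve model in one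
polynomial after the other: the second moment over the two coefficients of the polynomial, with
arbitrary bounded weights, is estimated by Fourier analysis (large sieve on the minor arcs, theorem
of Bombieri and Vinogradov on the major arcs). The sieve model is then evaluated in all intervals,
which gives the formula by partial summation.
-/

set_option autoImplicit false

namespace Pool.Agent.Results.MP_0bf1d2_nt.EveryNAlmostAllSystems

open Finset
open Polynomial (X C)
open scoped Polynomial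

/-- the polynomial `X (P + a X + b) + c` -/
noncomputable def poly (P : ℤ[X]) (a b : ℕ) (c : ℤ) : ℤ[X] := X * (P + C (a : ℤ) * X + C (b : ℤ)) + C c

/-- `Q_1(N)`: the number of positive integers `n` for which `N - G(n)` and all the `F_i(n)` are
positive primes -/
noncomputable def Q1 {g : ℕ} (N : ℕ) (G : ℤ[X]) (F : Fin g → ℤ[X]) : ℕ :=
  {n : ℕ | 1 ≤ n ∧ ((N : ℤ) - G.eval (n : ℤ)).toNat.Prime ∧ ∀ i, ((F i).eval (n : ℤ)).toNat.Prime}.ncard

/-- the product of `N - G` and the `F_i` has no fixed prime divisor -/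
def NoFixed {g : ℕ} (N : ℕ) (G : ℤ[X]) (F : Fin g → ℤ[X]) : Prop :=
  ∀ p : ℕ, p.Prime → ∃ n : ℤ, ¬ (p : ℤ) ∣ ((N : ℤ) - G.eval n) * ∏ i, (F i).eval n

/-- `ω_N(p)`: the number of zeros modulo `p` of the product of `N - G` and the `F_i` -/
noncomputable def omega {g : ℕ} (N : ℕ) (G : ℤ[X]) (F : Fin g → ℤ[X]) (p : ℕ) : ℕ :=
  #((range p).filter (fun n : ℕ => (p : ℤ) ∣ ((N : ℤ) - G.eval (n : ℤ)) * ∏ i, (F i).eval (n : ℤ)))

/-- the singular series `𝔖(N)` cut at `z` -/
noncomputable def sing {g : ℕ} (N : ℕ) (G : ℤ[X]) (F : Fin g → ℤ[X]) (z : ℕ) : ℝ :=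
  ∏ p ∈ (Icc 1 z).filter Nat.Prime, (1 - (omega N G F p : ℝ) / p) / (1 - 1 / (p : ℝ)) ^ (g + 1)

/-- the sum of `1 / (log (N - G(n)) ∏ log F_i(n))` over the `n ≥ 1` with `N - G(n) ≥ 2` -/
noncomputable def mainSum {g : ℕ} (N : ℕ) (G : ℤ[X]) (F : Fin g → ℤ[X]) : ℝ :=
  ∑ n ∈ (Icc 1 N).filter (fun n : ℕ => 2 ≤ (N : ℤ) - G.eval (n : ℤ)),
    1 / (Real.log (((N : ℤ) - G.eval (n : ℤ) : ℤ) : ℝ) * ∏ i, Real.log (((F i).eval (n : ℤ) : ℤ) : ℝ))

/-- **Every `N`, almost all systems.** Let `g, U, K ≥ 0` and `d ≥ 2`. There are `C₀`, `E₁` such that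
the following holds for every `E` if `x ≥ x₀(E)`. Let `(log x)^E₁ ≤ z ≤ (log x)^E`, let
`(log x)^C₀ ≤ D ≤ x^K` and `D x (log x)^(-K) ≤ B ≤ D x (log x)^K`, and let `N` be any natural number
with `B x (log x)^(-K) ≤ N ≤ B x (log x)^(-U-2)`. Let `P_0, …, P_g` be polynomials with nonnegative
integral coefficients, of degrees less than `d`, with `P_i(x) ≤ B (log x)^K`, and let `c_1, …, c_g` be
nonzero integers with `|c_i| ≤ B (log x)^(-U-2)`. For all but `(D B)^(g+1) / (log x)^U` of the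
`e = ((a_0, b_0), …, (a_g, b_g))` with `1 ≤ a_i ≤ D` and `1 ≤ b_i ≤ B`, the following holds for
`G = X (P_0 + a_0 X + b_0)` and `F_i = X (P_i + a_i X + b_i) + c_i`: if there is no fixed prime divisor,
then `Q_1(N)` differs from `𝔖_z(N) ∑ 1 / (log (N - G(n)) ∏ log F_i(n))` by at most `(log x)^(-U)`
times this product. -/
theorem result (g d U K : ℕ) (hd : 2 ≤ d) : ∃ C₀ E₁ : ℕ, ∀ E : ℕ, ∃ x₀ : ℕ, ∀ x : ℕ, x₀ ≤ x → ∀ z : ℕ,
    Real.log x ^ E₁ ≤ z → (z : ℝ) ≤ Real.log x ^ E → ∀ D B N : ℕ, Real.log x ^ C₀ ≤ D → (D : ℝ) ≤ (x : ℝ) ^ K →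
    (D : ℝ) * x ≤ B * Real.log x ^ K → (B : ℝ) ≤ D * x * Real.log x ^ K →
    (B : ℝ) * x ≤ N * Real.log x ^ K → (N : ℝ) * Real.log x ^ (U + 2) ≤ B * x →
    ∀ P : Fin (g + 1) → ℤ[X], (∀ i, (P i).natDegree + 1 ≤ d) → (∀ i j, 0 ≤ (P i).coeff j) →
    (∀ i, (((P i).eval (x : ℤ) : ℤ) : ℝ) ≤ B * Real.log x ^ K) →
    ∀ c : Fin g → ℤ, (∀ i, c i ≠ 0) → (∀ i, ((|c i| : ℤ) : ℝ) * Real.log x ^ (U + 2) ≤ B) →
    ∃ Bad ⊆ Fintype.piFinset (fun _ : Fin (g + 1) => Icc 1 D ×ˢ Icc 1 B),
      (#Bad : ℝ) ≤ ((D : ℝ) * B) ^ (g + 1) / Real.log x ^ U ∧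
      ∀ e ∈ Fintype.piFinset (fun _ : Fin (g + 1) => Icc 1 D ×ˢ Icc 1 B), e ∉ Bad →
        ∀ (G : ℤ[X]) (F : Fin g → ℤ[X]), G = poly (P 0) (e 0).1 (e 0).2 0 →
        (∀ i, F i = poly (P i.succ) (e i.succ).1 (e i.succ).2 (c i)) → NoFixed N G F →
        |(Q1 N G F : ℝ) - sing N G F z * mainSum N G F| ≤ sing N G F z * mainSum N G F / Real.log x ^ U :=
  Pool.Agent.Y868.TC.Gold.final g d U K hd

end Pool.Agent.Results.MP_0bf1d2_nt.EveryNAlmostAllSystems
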