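import Pool.Agent.Y879.GL.Schinzel

set_option autoImplicit false

/-!
Schinzel's Goldbach-type hypothesis with almost primes, for EVERY large admissible `N`, and the
distribution of the solutions: for fixed irreducible `F_1, ..., F_g` (`g ≥ 1`, positive leading
coefficients, no two of them translates of one another) and fixed `G`, and every large `N` for which
`N - G` is irreducible and `F_1 ... F_g (N - G)` has no fixed prime divisor, the `n` for which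
`F_1(n), ..., F_g(n), N - G(n)` have no prime factor up to `N ^ (1 / r)` have the expected density
in every interval of length at least `N ^ θ`, and the gaps between them (more generally the `k`-th
gaps) follow the exponential (Gamma) laws.
-/

namespace Pool.Agent.Results.MP_0bf1d2_nt.GapLawEveryN

open Finset Polynomial Filter

variable {g : ℕ}

/-- none of `F_1(n), ..., F_g(n), N - G(n)` has a prime factor `p ≤ N ^ (1 / r)` -/
def Good (F : Fin g → ℤ[X]) (G : ℤ[X]) (N r n : ℕ) : Prop :=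
  ∀ p : ℕ, p.Prime → (p : ℝ) ≤ (N : ℝ) ^ (1 / (r : ℝ)) →
    (∀ i, ¬ (p : ℤ) ∣ (F i).eval (n : ℤ)) ∧ ¬ (p : ℤ) ∣ (N : ℤ) - G.eval (n : ℤ)

/-- the number of `a` modulo `p` with `F_1(a) ... F_g(a) (N - G(a)) ≡ 0` -/
noncomputable def omega (F : Fin g → ℤ[X]) (G : ℤ[X]) (N p : ℕ) : ℕ :=
  ((range p).filter (fun a : ℕ =>
    (p : ℤ) ∣ (∏ i, (F i).eval (a : ℤ)) * ((N : ℤ) - G.eval (a : ℤ)))).card

/-- the product of `1 - omega(p) / p` over the primes `p ≤ N ^ (1 / r)` -/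
noncomputable def V (F : Fin g → ℤ[X]) (G : ℤ[X]) (N r : ℕ) : ℝ :=
  ∏ p ∈ (Icc 1 ⌊(N : ℝ) ^ (1 / (r : ℝ))⌋₊).filter Nat.Prime, (1 - (omega F G N p : ℝ) / p)

open Classical in
/-- the number of good `n` in `(u, u + Y]` with fewer than `k` good numbers in `[n - T, n)` -/
noncomputable def Near (F : Fin g → ℤ[X]) (G : ℤ[X]) (N r k T u Y : ℕ) : ℕ :=
  ((Ioc u (u + Y)).filter (fun n => Good F G N r n ∧
    ((Ico (n - T) n).filter (Good F G N r)).card < k)).card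

lemma good_iff (F : Fin g → ℤ[X]) (G : ℤ[X]) (N r n : ℕ) :
    Good F G N r n ↔ Pool.Agent.TH464.PO.Sf
      (Pool.Agent.W123.RU.Poly.Q (Pool.Agent.Y879.GL.SN F G N)) ⌊(N : ℝ) ^ (1 / (r : ℝ))⌋₊ n := by
  unfold Good Pool.Agent.TH464.PO.Sf
  constructor
  · intro h p hp hQ
    obtain ⟨hp1, hp2⟩ := Pool.Agent.H373R2.T7.mem_pz.1 hp
    have hpr : (p : ℝ) ≤ (N : ℝ) ^ (1 / (r : ℝ)) :=
      (Nat.le_floor_iff (by positivity)).1 hp1
    obtain ⟨h1, h2⟩ := h p hp2 hpr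
    obtain ⟨i, hi⟩ := hQ
    revert hi
    refine Fin.cases ?_ (fun i => ?_) i
    · intro hi
      rw [Pool.Agent.Y879.GL.SN_zero, eval_sub, eval_C] at hi
      exact h2 hi
    · intro hi
      exact h1 i hi
  · intro h p hp hpr
    have hp1 : p ∈ Pool.Agent.H373R2.T7.pz ⌊(N : ℝ) ^ (1 / (r : ℝ))⌋₊ :=
      Pool.Agent.H373R2.T7.mem_pz.2 ⟨Nat.le_floor hpr, hp⟩
    refine ⟨fun i hi => h p hp1 ⟨i.succ, hi⟩, fun hi => h p hp1 ⟨0, ?_⟩⟩
    rw [Pool.Agent.Y879.GL.SN_zero, eval_sub, eval_C]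
    exact hi

open Classical in
lemma omega_eq (F : Fin g → ℤ[X]) (G : ℤ[X]) (N p : ℕ) (hp : p.Prime) :
    omega F G N p = Pool.Agent.H373R2.T7.nuB
      (Pool.Agent.W123.RU.Poly.Q (Pool.Agent.Y879.GL.SN F G N)) p := by
  unfold omega Pool.Agent.H373R2.T7.nuB
  apply congrArg Finset.card
  ext a
  rw [mem_filter, mem_filter]
  apply and_congr_right
  intro _
  have hp' : Prime (p : ℤ) := Nat.prime_iff_prime_int.1 hp
  rw [hp'.dvd_mul, hp'.dvd_finset_prod_iff]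
  constructor
  · rintro (⟨i, _, hi⟩ | h)
    · exact ⟨i.succ, hi⟩
    · refine ⟨0, ?_⟩
      rw [Pool.Agent.Y879.GL.SN_zero, eval_sub, eval_C]
      exact h
  · rintro ⟨i, hi⟩
    revert hi
    refine Fin.cases ?_ (fun i => ?_) i
    · intro hi
      rw [Pool.Agent.Y879.GL.SN_zero, eval_sub, eval_C] at hi
      exact Or.inr hi
    · intro hi
      exact Or.inl ⟨i, mem_univ _, hi⟩

lemma V_eq (F : Fin g → ℤ[X]) (G : ℤ[X]) (N r : ℕ) :
    V F G N r = Pool.Agent.W123.RP.Vq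
      (Pool.Agent.W123.RU.Poly.Q (Pool.Agent.Y879.GL.SN F G N)) ⌊(N : ℝ) ^ (1 / (r : ℝ))⌋₊ := by
  unfold V Pool.Agent.W123.RP.Vq
  apply Finset.prod_congr rfl
  intro p hp
  rw [omega_eq F G N p (mem_filter.1 hp).2]

open Classical in
lemma Near_eq (F : Fin g → ℤ[X]) (G : ℤ[X]) (N r k T u Y : ℕ) :
    Near F G N r k T u Y = Pool.Agent.TH464.PO.Pk (Pool.Agent.TH464.PO.Sf
      (Pool.Agent.W123.RU.Poly.Q (Pool.Agent.Y879.GL.SN F G N)) ⌊(N : ℝ) ^ (1 / (r : ℝ))⌋₊) k T u Y := by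
  have e : Pool.Agent.TH464.PO.Sf
      (Pool.Agent.W123.RU.Poly.Q (Pool.Agent.Y879.GL.SN F G N)) ⌊(N : ℝ) ^ (1 / (r : ℝ))⌋₊ =
      Good F G N r := funext fun n => propext (good_iff F G N r n).symm
  rw [e]
  rfl

/-- **Schinzel's Goldbach-type hypothesis for almost primes, for every large `N`.** Let `g ≥ 1`, let
`F_1, ..., F_g` be irreducible nonconstant integer polynomials with positive leading coefficients,
no two of them translates of one another (for `g = 1` there is no condition), and let `G` be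
nonconstant. For all `θ, ε > 0`, `k₀`, `x₀` there are `c`, `r₀` such that for all `r ≥ r₀` there is
`κ > 0` such that for all large `N` for which `N - G` is irreducible and `F_1 ... F_g (N - G)` has no
fixed prime divisor: (1) for all good `n ≤ N` the integer `F_1(n) ... F_g(n) (N - G(n))` is not zero
and has at most `c r` prime factors; (2) the density `V` is at least `κ / (log N) ^ c` and at most
`1 / (κ (log N) ^ g)`; (3) in every interval `(u, u + Y]` with `Y ≥ N ^ θ`, for all `T` and all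
`k ≤ k₀` (and for all `k` if `T V ≤ x₀`), the number of good `n` with fewer than `k` good numbers in
`[n - T, n)` is `Y V (e ^ (-TV) ∑ j < k, (TV) ^ j / j! + δ)` with `|δ| ≤ ε`. -/
theorem result (hg : 1 ≤ g) (F : Fin g → ℤ[X]) (G : ℤ[X])
    (hirr : ∀ i, Irreducible (F i)) (hdeg : ∀ i, 1 ≤ (F i).natDegree)
    (hlc : ∀ i, 0 < (F i).leadingCoeff)
    (htr : ∀ i j, i ≠ j → ∀ t : ℤ, F i ≠ (F j).comp (X + C t)) (hG : 1 ≤ G.natDegree)
    (θ ε x₀ : ℝ) (k₀ : ℕ) (hθ : 0 < θ) (hε : 0 < ε) :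
    ∃ c r₀ : ℕ, ∀ r : ℕ, r₀ ≤ r → ∃ κ : ℝ, 0 < κ ∧ ∃ N₀ : ℕ, ∀ N : ℕ, N₀ ≤ N →
      Irreducible (C (N : ℤ) - G) →
      (∀ p : ℕ, p.Prime → ∃ n : ℤ, ¬ (p : ℤ) ∣ (∏ i, (F i).eval n) * ((N : ℤ) - G.eval n)) →
      (∀ n : ℕ, n ≤ N → Good F G N r n →
        (∏ i, (F i).eval (n : ℤ)) * ((N : ℤ) - G.eval (n : ℤ)) ≠ 0 ∧
        ((∏ i, (F i).eval (n : ℤ)) * ((N : ℤ) - G.eval (n : ℤ))).natAbs.primeFactorsList.length ≤
          c * r) ∧
      κ / Real.log N ^ c ≤ V F G N r ∧ V F G N r ≤ 1 / (κ * Real.log N ^ g) ∧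
      ∀ u Y k T : ℕ, (N : ℝ) ^ θ ≤ Y → (k ≤ k₀ ∨ T * V F G N r ≤ x₀) →
        |(Near F G N r k T u Y : ℝ) - Y * V F G N r *
            ∑ j ∈ range k, Real.exp (-(T * V F G N r)) * (T * V F G N r) ^ j / j.factorial| ≤
          ε * (Y * V F G N r) := by
  obtain ⟨c1, r1, h1⟩ := Pool.Agent.Y879.GL.schinzel_law (by omega : 0 < g) F G hirr hdeg hlc htr hG
    θ ε x₀ k₀ hθ hε
  obtain ⟨K1, D1, hKD1⟩ := Pool.Agent.W123.RU.Poly.eval_bound (∏ i, F i)
  obtain ⟨K2, D2, hKD2⟩ := Pool.Agent.W123.RU.Poly.eval_bound G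
  obtain ⟨c, hc⟩ : ∃ c, c = c1 + (2 * D1 + 2 * D2 + 3) := ⟨_, rfl⟩
  refine ⟨c, max r1 2, ?_⟩
  intro r hr
  have hr2 : 2 ≤ r := (le_max_right _ _).trans hr
  obtain ⟨κ, hκ, hev⟩ := h1 r ((le_max_left _ _).trans hr)
  obtain ⟨N0, hN0⟩ := eventually_atTop.1 (hev.and (Pool.Agent.Y879.GL.level_ok r hr2))
  refine ⟨κ, hκ, max N0 (K1 + K2 + 2), ?_⟩
  intro N hN hirrN hadm
  obtain ⟨h2, h3⟩ := hN0 N ((le_max_left _ _).trans hN)
  obtain ⟨b1, b2, b3⟩ := h2 hirrN hadm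
  have hNK : K1 + K2 + 2 ≤ N := (le_max_right _ _).trans hN
  have hlog1 : 1 ≤ Real.log N := h3.2.2.2.2
  rw [V_eq F G N r]
  refine ⟨?_, ?_, b2, ?_⟩
  · intro n hn hgood
    have hz3 : (3 : ℝ) ≤ (N : ℝ) ^ (1 / (r : ℝ)) := by
      have h4 : ((3 : ℕ) : ℝ) ≤ (N : ℝ) ^ (1 / (r : ℝ)) :=
        (Nat.le_floor_iff (by positivity)).1 h3.1
      exact_mod_cast h4
    obtain ⟨e1, e2⟩ := hgood 2 Nat.prime_two (by push_cast; linarith)
    have hne : (∏ i, (F i).eval (n : ℤ)) * ((N : ℤ) - G.eval (n : ℤ)) ≠ 0 := by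
      apply mul_ne_zero
      · rw [Finset.prod_ne_zero_iff]
        intro i _ h0
        exact e1 i (by rw [h0]; exact dvd_zero _)
      · intro h0
        exact e2 (by rw [h0]; exact dvd_zero _)
    refine ⟨hne, ?_⟩
    have hNr : ((K1 : ℝ) + K2 + 2) ≤ N := by exact_mod_cast hNK
    have hK1 : (0 : ℝ) ≤ K1 := Nat.cast_nonneg _
    have hK2 : (0 : ℝ) ≤ K2 := Nat.cast_nonneg _
    have hN2 : (2 : ℝ) ≤ N := by linarith
    have hN1 : (1 : ℝ) ≤ N := by linarith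
    have hN0' : (0 : ℝ) < N := by linarith
    have hnN : (n : ℝ) ≤ N := by exact_mod_cast hn
    have hbase : 1 + |((n : ℤ) : ℝ)| ≤ (N : ℝ) ^ 2 := by
      rw [abs_of_nonneg (by positivity)]
      push_cast
      nlinarith
    have hb0 : 0 ≤ 1 + |((n : ℤ) : ℝ)| := by positivity
    have f1 : |(((∏ i, (F i).eval (n : ℤ)) : ℤ) : ℝ)| ≤ (N : ℝ) ^ (2 * D1 + 1) := by
      have := hKD1 n
      rw [eval_prod] at this
      refine this.trans ?_
      calc (K1 : ℝ) * (1 + |((n : ℤ) : ℝ)|) ^ D1 ≤ N * ((N : ℝ) ^ 2) ^ D1 := by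
            apply mul_le_mul (by linarith) (pow_le_pow_left₀ hb0 hbase _) (by positivity) hN0'.le
        _ = (N : ℝ) ^ (2 * D1 + 1) := by rw [← pow_mul]; ring
    have f2 : |(((N : ℤ) - G.eval (n : ℤ) : ℤ) : ℝ)| ≤ (N : ℝ) ^ (2 * D2 + 2) := by
      have h4 : |((G.eval (n : ℤ) : ℤ) : ℝ)| ≤ (N - 1) * (N : ℝ) ^ (2 * D2) := by
        refine (hKD2 n).trans ?_
        rw [pow_mul]
        apply mul_le_mul (by linarith) (pow_le_pow_left₀ hb0 hbase _) (by positivity) (by linarith)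
      have h5 : (1 : ℝ) ≤ (N : ℝ) ^ (2 * D2) := one_le_pow₀ hN1
      push_cast
      refine (abs_sub _ _).trans ?_
      rw [abs_of_nonneg hN0'.le]
      have h6 : (N : ℝ) ^ (2 * D2 + 2) = N * (N * (N : ℝ) ^ (2 * D2)) := by ring
      rw [h6]
      have h8 : (N : ℝ) * 1 ≤ N * (N : ℝ) ^ (2 * D2) := mul_le_mul_of_nonneg_left h5 hN0'.le
      have h9 : 2 * (N * (N : ℝ) ^ (2 * D2)) ≤ N * (N * (N : ℝ) ^ (2 * D2)) :=
        mul_le_mul_of_nonneg_right hN2 (by positivity)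
      linarith
    have hval : ((((∏ i, (F i).eval (n : ℤ)) * ((N : ℤ) - G.eval (n : ℤ))).natAbs : ℕ) : ℝ) ≤
        ((N : ℝ) ^ (1 / (r : ℝ))) ^ (c * r) := by
      rw [Nat.cast_natAbs]
      push_cast
      rw [abs_mul]
      push_cast at f1 f2
      have hrne : (r : ℝ) ≠ 0 := by
        have : (2 : ℝ) ≤ r := by exact_mod_cast hr2
        linarith
      have h7 : ((N : ℝ) ^ (1 / (r : ℝ))) ^ (c * r) = (N : ℝ) ^ c := by
        rw [← Real.rpow_natCast ((N : ℝ) ^ (1 / (r : ℝ))), ← Real.rpow_mul hN0'.le,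
          ← Real.rpow_natCast]
        congr 1
        push_cast
        field_simp
      rw [h7]
      calc _ ≤ (N : ℝ) ^ (2 * D1 + 1) * (N : ℝ) ^ (2 * D2 + 2) :=
            mul_le_mul f1 f2 (abs_nonneg _) (by positivity)
        _ = (N : ℝ) ^ (2 * D1 + 1 + (2 * D2 + 2)) := (pow_add _ _ _).symm
        _ ≤ (N : ℝ) ^ c := pow_le_pow_right₀ hN1 (by omega)
    refine Pool.Agent.Y879.GL.few_of_rough ((N : ℝ) ^ (1 / (r : ℝ))) (by linarith) _ (c * r)
      (Int.natAbs_ne_zero.2 hne) hval ?_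
    intro q hq hqd
    by_contra hcon
    rw [not_lt] at hcon
    obtain ⟨g1, g2⟩ := hgood q hq hcon
    have hq' : Prime (q : ℤ) := Nat.prime_iff_prime_int.1 hq
    have hqd' : (q : ℤ) ∣ (∏ i, (F i).eval (n : ℤ)) * ((N : ℤ) - G.eval (n : ℤ)) :=
      Int.natCast_dvd.2 hqd
    rcases hq'.dvd_or_dvd hqd' with h | h
    · obtain ⟨i, _, hi⟩ := (hq'.dvd_finset_prod_iff _).1 h
      exact g1 i hi
    · exact g2 h
  · refine le_trans ?_ b1
    apply div_le_div_of_nonneg_left hκ.le (by positivity)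
    exact pow_le_pow_right₀ hlog1 (by omega)
  · intro u Y k T hY hT
    rw [Near_eq]
    exact b3 u Y hY k T hT

end Pool.Agent.Results.MP_0bf1d2_nt.GapLawEveryN
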