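import Pool.Agent.Y816.PD.UniL

set_option autoImplicit false

/-!
# `F_1(n), ..., F_g(n), N - G(n)` at integers `n` with restricted digits, uniformly in `N`

The integers `n < b ^ K` whose `i`-th digit in base `b` belongs to an arbitrary set `A i` (for all `i < K`) are
considered, the product of the `|A i|` being at least `exp (- c K) b ^ K`. Everything is uniform in the
`N ≤ b ^ (D K)` without local obstruction with `G(n) < N` for all `n < b ^ K`.
-/

namespace Pool.Agent.Results.MP_0bf1d2_nt.RestrictedDigits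

open Finset Filter Polynomial
open Pool.Agent.Y816.PD (ND NA Alm Rgh WG)

/-- The product `F_1(n) ... F_g(n) (N - G(n))`. -/
def V {g : ℕ} (F : Fin g → ℤ[X]) (G : ℤ[X]) (N n : ℕ) : ℤ :=
  (∏ i, (F i).eval (n : ℤ)) * ((N : ℤ) - G.eval (n : ℤ))

/-- **Schinzel's quantitative Goldbach-type hypothesis for almost primes and restricted digits.** -/
theorem result {g : ℕ} (F : Fin g → ℤ[X]) (G : ℤ[X]) (hG : 1 ≤ G.natDegree) (D : ℕ) :
    ∃ c : ℝ, 0 < c ∧ ∃ r₀ : ℕ, 2 ≤ r₀ ∧ ∀ r : ℕ, r₀ ≤ r →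
      (∀ N n : ℕ, (∀ i, ((F i).eval (n : ℤ)).natAbs.Prime ∧ n < ((F i).eval (n : ℤ)).natAbs ^ r) →
        ((N : ℤ) - G.eval (n : ℤ)).natAbs.Prime → n < ((N : ℤ) - G.eval (n : ℤ)).natAbs ^ r →
        n ∈ Rgh (V F G N) r) ∧
      ∀ b : ℕ, 2 ≤ b → ∃ κ C : ℝ, 0 < κ ∧ 0 < C ∧ ∀ᶠ K : ℕ in atTop, ∀ N : ℕ, N ≤ b ^ (D * K) →
        (∀ p : ℕ, p.Prime → ∃ n : ℕ, ¬ (p : ℤ) ∣ V F G N n) →
        (∀ n : ℕ, n < b ^ K → G.eval (n : ℤ) < N) → ∀ A : ℕ → Finset ℕ,
        (∀ i < K, A i ⊆ range b) → (b : ℝ) ^ K ≤ Real.exp (c * K) * NA K A →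
        ((∃ d ∈ A 0, (V F G N d).natAbs.Coprime b) →
          κ * NA K A * WG (V F G N) (b ^ K) ≤ ND b K A (Alm (V F G N) r (b ^ K))) ∧
        (ND b K A (Rgh (V F G N) r) : ℝ) ≤ C * NA K A * WG (V F G N) (b ^ K) := by
  obtain ⟨B1, D1, hB1⟩ := Pool.Agent.W123.RU.Poly.eval_bound (∏ i, F i)
  obtain ⟨B2, D2, hB2⟩ := Pool.Agent.W123.RU.Poly.eval_bound G
  obtain ⟨c, hc, r₀, hr₀, h⟩ := Pool.Agent.Y816.PD.uni_fun (∑ i, (F i).natDegree + G.natDegree)
    ((D1 + 1) + (D + D2 + 2)) (by omega)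
  refine ⟨c, hc, r₀, hr₀, fun r hr => ⟨fun N n h1 h2 h3 p hp hd => ?_, fun b hb => ?_⟩⟩
  · have hpz := Nat.prime_iff_prime_int.1 hp
    unfold V at hd
    rcases hpz.dvd_or_dvd hd with hd | hd
    · obtain ⟨i, -, hi⟩ := (Prime.dvd_finsetProd_iff hpz _).1 hd
      rw [(Nat.prime_dvd_prime_iff_eq hp (h1 i).1).1 (Int.natCast_dvd.1 hi)]
      exact (h1 i).2
    · rw [(Nat.prime_dvd_prime_iff_eq hp h2).1 (Int.natCast_dvd.1 hd)]
      exact h3
  · obtain ⟨κ, C₁, hκ, hC, h1⟩ := h r hr b hb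
    refine ⟨κ, C₁, hκ, hC, ?_⟩
    filter_upwards [h1, eventually_ge_atTop (B1 + B2 + 1)] with K hK hKB N hN hadm _ A hA hprod
    have hpoly : ∃ P : ℤ[X], P.natDegree ≤ ∑ i, (F i).natDegree + G.natDegree ∧
        ∀ n : ℕ, P.eval (n : ℤ) = V F G N n := by
      refine ⟨(∏ i, F i) * (C (N : ℤ) - G), ?_, fun n => ?_⟩
      · refine natDegree_mul_le.trans (Nat.add_le_add (natDegree_prod_le _ _) ?_)
        refine (natDegree_sub_le _ _).trans ?_
        rw [natDegree_C]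
        simp
      · unfold V
        rw [eval_mul, eval_prod, eval_sub, eval_C]
    have hbK : K < b ^ K := Nat.lt_pow_self (by omega)
    have hsize : ∀ n : ℕ, n < b ^ K → (V F G N n).natAbs ≤ b ^ (((D1 + 1) + (D + D2 + 2)) * K) := by
      intro n hn
      obtain ⟨y, hy⟩ : ∃ y : ℝ, y = (b : ℝ) ^ K := ⟨_, rfl⟩
      have hy2 : (2 : ℝ) ≤ y := by
        rw [hy]
        have : 2 ≤ b ^ K := hb.trans (Nat.le_self_pow (by omega) b)
        exact_mod_cast this
      have hy1 : (1 : ℝ) ≤ y := by linarith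
      have hn1 : (1 : ℝ) + |((n : ℤ) : ℝ)| ≤ y := by
        rw [hy, Int.cast_natCast, abs_of_nonneg (Nat.cast_nonneg _)]
        have : 1 + n ≤ b ^ K := by omega
        exact_mod_cast this
      have hB1y : (B1 : ℝ) ≤ y := by
        rw [hy]
        have : B1 ≤ b ^ K := by omega
        exact_mod_cast this
      have hB2y : (B2 : ℝ) ≤ y := by
        rw [hy]
        have : B2 ≤ b ^ K := by omega
        exact_mod_cast this
      have h0 : (0 : ℝ) ≤ 1 + |((n : ℤ) : ℝ)| := by positivity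
      have e1 : |(((∏ i, (F i).eval (n : ℤ)) : ℤ) : ℝ)| ≤ y ^ (D1 + 1) := by
        have := hB1 (n : ℤ)
        rw [eval_prod] at this
        refine this.trans ?_
        rw [pow_succ, mul_comm]
        exact mul_le_mul (pow_le_pow_left₀ h0 hn1 D1) hB1y (Nat.cast_nonneg _) (by positivity)
      have e2 : |((G.eval (n : ℤ) : ℤ) : ℝ)| ≤ y ^ (D2 + 1) := by
        refine (hB2 (n : ℤ)).trans ?_
        rw [pow_succ, mul_comm]
        exact mul_le_mul (pow_le_pow_left₀ h0 hn1 D2) hB2y (Nat.cast_nonneg _) (by positivity)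
      have e3 : (N : ℝ) ≤ y ^ D := by
        rw [hy, ← pow_mul, mul_comm K D]
        exact_mod_cast hN
      have e4 : |(((N : ℤ) - G.eval (n : ℤ) : ℤ) : ℝ)| ≤ y ^ (D + D2 + 2) := by
        push_cast
        have f1 : y ^ D ≤ y ^ (D + D2 + 1) := pow_le_pow_right₀ hy1 (by omega)
        have f2 : y ^ (D2 + 1) ≤ y ^ (D + D2 + 1) := pow_le_pow_right₀ hy1 (by omega)
        have f3 : y ^ (D + D2 + 2) = y * y ^ (D + D2 + 1) := by ring
        have f4 : 0 ≤ y ^ (D + D2 + 1) := by positivity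
        calc |(N : ℝ) - ((G.eval (n : ℤ) : ℤ) : ℝ)| ≤ |(N : ℝ)| + |((G.eval (n : ℤ) : ℤ) : ℝ)| := abs_sub _ _
          _ ≤ y ^ (D + D2 + 1) + y ^ (D + D2 + 1) := by
              rw [abs_of_nonneg (Nat.cast_nonneg _)]
              linarith
          _ ≤ y ^ (D + D2 + 2) := by
              rw [f3]
              nlinarith
      have e5 : (((V F G N n).natAbs : ℕ) : ℝ) ≤ ((b ^ (((D1 + 1) + (D + D2 + 2)) * K) : ℕ) : ℝ) := by
        rw [Nat.cast_natAbs, Int.cast_abs]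
        unfold V
        rw [Int.cast_mul, abs_mul]
        push_cast at e1 e4 ⊢
        calc _ ≤ y ^ (D1 + 1) * y ^ (D + D2 + 2) :=
              mul_le_mul e1 e4 (abs_nonneg _) (by positivity)
          _ = (b : ℝ) ^ (((D1 + 1) + (D + D2 + 2)) * K) := by
              rw [← pow_add, hy, ← pow_mul]
              congr 1
              ring
      exact_mod_cast e5
    exact hK (V F G N) hpoly hadm hsize A hA hprod

end Pool.Agent.Results.MP_0bf1d2_nt.RestrictedDigits
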